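import Pool.Agent.RS.StmtsF

/-!
# Squad RS, row STB: degrees at the stop
-/

set_option autoImplicit false

namespace Pool.Agent.RS.H37

open MvPolynomial Pool.Agent.RS

theorem totalDegree_prod_eq {E : Type} [Field E] {ι : Type} (s : Finset ι)
    (b : ι → MvPolynomial ℕ E) (hb : ∀ t ∈ s, b t ≠ 0) :
    (∏ t ∈ s, b t).totalDegree = ∑ t ∈ s, (b t).totalDegree := by
  classical
  induction s using Finset.induction_on with
  | empty => simp
  | insert x s hx ih =>
    rw [Finset.prod_insert hx, Finset.sum_insert hx, totalDegree_mul_of_isDomain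
      (hb x (Finset.mem_insert_self x s))
      (Finset.prod_ne_zero_iff.2 fun t ht => hb t (Finset.mem_insert_of_mem ht)),
      ih fun t ht => hb t (Finset.mem_insert_of_mem ht)]

theorem stb : StbStmt := by
  intro E _ ι _ _ a b e w D hb ha he hw
  by_cases h0 : w = 0
  · rw [h0]; simp
  have hprod : ∏ t, b t ≠ 0 := Finset.prod_ne_zero_iff.2 fun t _ => hb t
  have h1 : (w * ∏ t, b t).totalDegree = w.totalDegree + ∑ t, (b t).totalDegree := by
    rw [totalDegree_mul_of_isDomain h0 hprod, totalDegree_prod_eq Finset.univ b fun t _ => hb t]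
  have h2 : (numer a b).totalDegree ≤ D + ∑ t, (b t).totalDegree := by
    unfold numer
    refine totalDegree_finsetSum_le fun t _ => ?_
    refine (totalDegree_mul _ _).trans (Nat.add_le_add (ha t) ?_)
    refine (totalDegree_finsetProd _ _).trans ?_
    exact Finset.sum_le_sum_of_subset (Finset.erase_subset _ _)
  have h3 : (numer a b * e ^ D).totalDegree ≤ (D + ∑ t, (b t).totalDegree) + D * e.totalDegree :=
    (totalDegree_mul _ _).trans (Nat.add_le_add h2 (totalDegree_pow _ _))
  rw [← hw, h1] at h3
  omega

end Pool.Agent.RS.H37
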