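import Pool.Agent.RS.StmtsF

/-!
# Squad RS, row TRS: transfer
-/

set_option autoImplicit false

namespace Pool.Agent.RS.H37

open MvPolynomial Pool.Agent.RS

theorem trs (phb : PhbStmt) (nmt : NmtStmt) : TrsStmt := by
  intro E _ ι _ _ j B c q a b a₁ b₁ a' b' h1 h2 J ζ hj hb hb' hnum hcon
  apply hnum
  obtain ⟨φ, hφ⟩ : ∃ φ : MvPolynomial ℕ E →+* FF E,
      φ = (io E).comp (Phi J ζ : MvPolynomial ℕ E →ₐ[E] MvPolynomial ℕ E).toRingHom := ⟨_, rfl⟩
  have hφa : ∀ f, φ f = io E (Phi J ζ f) := by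
    intro f
    rw [hφ]
    rfl
  have hψ : ∀ f, atX j φ f = atX j (io E) (Phi J ζ f) := by
    intro f
    have h := (phb E J ζ f).2.1 j hj
    have e1 : atX j φ f = Polynomial.map φ (toX j f) := rfl
    have e2 : atX j (io E) (Phi J ζ f) = Polynomial.map (io E) (toX j (Phi J ζ f)) := rfl
    rw [e1, e2, ← h, Polynomial.map_map, hφ]
  obtain ⟨Ψ, hΨ⟩ : ∃ Ψ : MvPolynomial ℕ E →+* RatFunc (FF E),
      Ψ = (algebraMap (Polynomial (FF E)) (RatFunc (FF E))).comp (atX j φ) := ⟨_, rfl⟩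
  have hΨa : ∀ f, Ψ f = algebraMap (Polynomial (FF E)) (RatFunc (FF E)) (atX j φ f) := by
    intro f
    rw [hΨ]
    rfl
  have hinj : Function.Injective (algebraMap (Polynomial (FF E)) (RatFunc (FF E))) :=
    IsFractionRing.injective _ _
  have hne : ∀ f, atX j φ f ≠ 0 → Ψ f ≠ 0 := by
    intro f hf h
    rw [hΨa, ← map_zero (algebraMap (Polynomial (FF E)) (RatFunc (FF E)))] at h
    exact hf (hinj h)
  have hΨb : ∀ t, Ψ (b t) ≠ 0 := by
    intro t
    apply hne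
    rw [hψ]
    intro h
    rw [← map_zero (atX j (io E))] at h
    exact hb t (atX_injective j h)
  have hφb' : ∀ t, φ (b' t) ≠ 0 := by
    intro t h
    rw [hφa, ← map_zero (io E)] at h
    exact hb' t (io_injective h)
  have hΨn : Ψ (numer a b) = 0 := by
    rw [hΨa, hψ, hcon, map_zero, map_zero]
  have hsum : ∑ t, Ψ (a t) / Ψ (b t) = 0 := by
    rw [(nmt ι).1 (MvPolynomial ℕ E) (RatFunc (FF E)) Ψ a b hΨb, hΨn, zero_div]
  have hterm : ∀ t, Ψ (a t) / Ψ (b t) =
      algebraMap (Polynomial (FF E)) (RatFunc (FF E)) (atX j φ (a₁ t)) /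
        (algebraMap (Polynomial (FF E)) (RatFunc (FF E)) (atX j φ q) ^ B *
          algebraMap (Polynomial (FF E)) (RatFunc (FF E)) (atX j φ (b₁ t))) := by
    intro t
    obtain ⟨e1, e2, -, -⟩ := h2 t (FF E) φ (hφb' t)
    rw [← hΨa, ← hΨa, ← hΨa, div_eq_div_iff (hΨb t)
      (mul_ne_zero (pow_ne_zero _ (hne _ e2)) (hne _ e1))]
    have h := congrArg Ψ (h1 t).2
    rw [map_mul, map_mul, map_mul, map_pow] at h
    rw [h]
  have hz : ∑ t, φ (a' t) / φ (b' t) = 0 := by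
    have e1 : ∑ t, φ (a' t) / φ (b' t) = ∑ t, res (atX j φ q)
        (algebraMap (Polynomial (FF E)) (RatFunc (FF E)) (Polynomial.X ^ c) *
          (Ψ (a t) / Ψ (b t))) := by
      refine Finset.sum_congr rfl fun t _ => ?_
      rw [hterm t]
      exact (h2 t (FF E) φ (hφb' t)).2.2.2.symm
    rw [e1, ← map_sum, ← Finset.mul_sum, hsum, mul_zero, map_zero]
  rw [(nmt ι).1 (MvPolynomial ℕ E) (FF E) φ a' b' hφb', div_eq_zero_iff] at hz
  rcases hz with h | h
  · rw [hφa, ← map_zero (io E)] at h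
    exact io_injective h
  · rw [map_prod] at h
    exact absurd h (Finset.prod_ne_zero_iff.2 fun t _ => hφb' t)

end Pool.Agent.RS.H37
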